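import Mathlib

/-!
# Classical groups: definitions

`isoH h` is the isometry group of a function `h` of two variables, `CSq G` is Thompson's property, `CC G` is Thompson's property for the
commutator subgroup modulo its center.
-/

namespace ThC

/-- the isometry group of a function of two variables -/
def isoH {K V : Type*} [Field K] [AddCommGroup V] [Module K V] (h : V → V → K) :
    Subgroup (V ≃ₗ[K] V) where
  carrier := {g | ∀ x y, h (g x) (g y) = h x y}
  one_mem' := fun _ _ => rfl
  mul_mem' := fun {g g'} h1 h2 x y => by
    show h (g (g' x)) (g (g' y)) = h x y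
    rw [h1, h2]
  inv_mem' := fun {g} h1 x y => by
    rw [← h1 (g⁻¹ x) (g⁻¹ y)]
    show h (g (g.symm x)) (g (g.symm y)) = h x y
    rw [g.apply_symm_apply, g.apply_symm_apply]

/-- Thompson's property: some conjugacy class `C` satisfies `C * C = G` -/
def CSq (G : Type*) [Group G] : Prop :=
  ∃ g : G, ∀ z : G, ∃ x y : G, IsConj g x ∧ IsConj g y ∧ x * y = z

/-- Thompson's property for the commutator subgroup modulo its center -/
def CC (G : Type*) [Group G] : Prop := CSq (commutator G ⧸ Subgroup.center (commutator G))

end ThC
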