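import Pool.Agent.ThC.Defs

/-! # Group theory -/

namespace ThC

-- BEGIN ga
private theorem ga_cen {A B : Type*} [Group A] [Group B] (e : A ≃* B) : (Subgroup.center A).map (e : A →* B) = Subgroup.center B := by
  ext y
  rw [Subgroup.mem_map]
  constructor
  · rintro ⟨x, hx, rfl⟩
    rw [Subgroup.mem_center_iff] at hx ⊢
    intro z
    obtain ⟨w, rfl⟩ := e.surjective z
    have h1 := congrArg e (hx w)
    rw [map_mul, map_mul] at h1
    exact h1
  · intro hy
    rw [Subgroup.mem_center_iff] at hy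
    refine ⟨e.symm y, ?_, e.apply_symm_apply y⟩
    rw [Subgroup.mem_center_iff]
    intro w
    have h1 := congrArg e.symm (hy (e w))
    rw [map_mul, map_mul, e.symm_apply_apply] at h1
    exact h1

/-- MODULE ga. `CC.congr`: the isomorphism maps `commutator G` onto `commutator H` (`Subgroup.map_commutator`), so `commutator G ≃* commutator H`
(`MulEquiv.subgroupMap`, `MulEquiv.subgroupCongr`), this maps the center onto the center, `QuotientGroup.congr`, `CSq.congr`. -/
theorem CSq.congr {G H : Type*} [Group G] [Group H] (e : G ≃* H) (h : CSq G) : CSq H := by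
  obtain ⟨g, hg⟩ := h
  refine ⟨e g, fun z => ?_⟩
  obtain ⟨x, y, hx, hy, hxy⟩ := hg (e.symm z)
  refine ⟨e x, e y, MonoidHom.map_isConj (e : G →* H) hx, MonoidHom.map_isConj (e : G →* H) hy, ?_⟩
  rw [← map_mul, hxy, e.apply_symm_apply]

theorem CC.congr {G H : Type*} [Group G] [Group H] (e : G ≃* H) (h : CC G) : CC H := by
  have h1 : (commutator G).map (e : G →* H) = commutator H := by
    rw [commutator_def, commutator_def, Subgroup.map_commutator, Subgroup.map_top_of_surjective (e : G →* H) e.surjective]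
  have e1 : commutator G ≃* commutator H := (e.subgroupMap (commutator G)).trans (MulEquiv.subgroupCongr h1)
  exact CSq.congr (QuotientGroup.congr _ _ e1 (ga_cen e1)) h
-- END ga

-- BEGIN gb
private theorem gb_comm {Q : Type*} [Group Q] (h : CSq Q) (z : Q) : ∃ a b : Q, z = a * b * a⁻¹ * b⁻¹ := by
  obtain ⟨g, hg⟩ := h
  obtain ⟨x₀, y₀, hx₀, hy₀, h₀⟩ := hg 1
  have h1 : y₀ = x₀⁻¹ := (inv_eq_of_mul_eq_one_right h₀).symm
  have h2 : IsConj g g⁻¹ := by
    obtain ⟨c, hc⟩ := isConj_iff.1 hx₀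
    have h3 : IsConj g⁻¹ y₀ := isConj_iff.2 ⟨c, by rw [h1, ← hc]; group⟩
    exact hy₀.trans h3.symm
  obtain ⟨x, y, hx, hy, hz⟩ := hg z
  have h3 : IsConj x⁻¹ y := by
    obtain ⟨c, hc⟩ := isConj_iff.1 hx
    have h4 : IsConj g⁻¹ x⁻¹ := isConj_iff.2 ⟨c, by rw [← hc]; group⟩
    exact (h2.trans h4).symm.trans hy
  obtain ⟨w, hw⟩ := isConj_iff.1 h3
  refine ⟨x, w, ?_⟩
  rw [← hz, ← hw]
  group

/-- MODULE gb. `Q = H / Z(H)` with class `C`, `C * C = Q`.  `1 = x y` with `x, y ∈ C`, so `C = C⁻¹`, and `x * y` (`x, y ∈ C`) is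
`x * (w x⁻¹ w⁻¹)`, a commutator: every element of `Q` is a commutator.  So every `h ∈ H` is `z * c` with `z ∈ Z(H)`, `c` a commutator of elements of
`H`, in particular `c ∈ commutator G`.  The homomorphism `φ : commutator G → H → Q` (`Subgroup.inclusion hH`, `QuotientGroup.mk'`) is onto; its kernel is
the center of `commutator G`: if `g ∈ commutator G` is in `Z(H)` it commutes with `commutator G ≤ H`; if `g` is in the center of
`commutator G` it commutes with all `z * c`.  `QuotientGroup.quotientKerEquivOfSurjective`, `QuotientGroup.quotientMulEquivOfEq`,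
`CSq.congr`. -/
theorem cc_of {G : Type*} [Group G] (H : Subgroup G) (hH : commutator G ≤ H)
    (h : CSq (H ⧸ Subgroup.center H)) : CC G := by
  have hdec : ∀ x : H, ∃ a b : H, ∀ y : H, y * (x * (a * b * a⁻¹ * b⁻¹)⁻¹) = x * (a * b * a⁻¹ * b⁻¹)⁻¹ * y := by
    intro x
    obtain ⟨a', b', hab⟩ := gb_comm h (QuotientGroup.mk' (Subgroup.center H) x)
    obtain ⟨a, rfl⟩ := QuotientGroup.mk'_surjective (Subgroup.center H) a'
    obtain ⟨b, rfl⟩ := QuotientGroup.mk'_surjective (Subgroup.center H) b'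
    refine ⟨a, b, fun y => ?_⟩
    have h1 : QuotientGroup.mk' (Subgroup.center H) (x * (a * b * a⁻¹ * b⁻¹)⁻¹) = 1 := by
      rw [map_mul, map_inv, map_mul, map_mul, map_mul, map_inv, map_inv, ← hab, mul_inv_cancel]
    have h2 : x * (a * b * a⁻¹ * b⁻¹)⁻¹ ∈ Subgroup.center H := by
      rwa [← MonoidHom.mem_ker, QuotientGroup.ker_mk'] at h1
    exact Subgroup.mem_center_iff.1 h2 y
  have hcm : ∀ a b : H, ((a * b * a⁻¹ * b⁻¹ : H) : G) ∈ commutator G := by
    intro a b
    exact Subgroup.commutator_mem_commutator (Subgroup.mem_top (a : G)) (Subgroup.mem_top (b : G))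
  let φ : commutator G →* H ⧸ Subgroup.center H := (QuotientGroup.mk' (Subgroup.center H)).comp (Subgroup.inclusion hH)
  have hφ : ∀ g : commutator G, φ g = 1 ↔ ∀ y : H, (y : G) * g = g * y := by
    intro g
    have e1 : φ g = 1 ↔ Subgroup.inclusion hH g ∈ Subgroup.center H := QuotientGroup.eq_one_iff (Subgroup.inclusion hH g)
    rw [e1, Subgroup.mem_center_iff]
    exact ⟨fun h1 y => congrArg Subtype.val (h1 y), fun h1 y => Subtype.ext (h1 y)⟩
  have hsur : Function.Surjective φ := by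
    intro q
    obtain ⟨a', b', hab⟩ := gb_comm h q
    obtain ⟨a, rfl⟩ := QuotientGroup.mk'_surjective (Subgroup.center H) a'
    obtain ⟨b, rfl⟩ := QuotientGroup.mk'_surjective (Subgroup.center H) b'
    refine ⟨⟨((a * b * a⁻¹ * b⁻¹ : H) : G), hcm a b⟩, ?_⟩
    have e1 : φ ⟨((a * b * a⁻¹ * b⁻¹ : H) : G), hcm a b⟩ = QuotientGroup.mk' (Subgroup.center H) (a * b * a⁻¹ * b⁻¹) := rfl
    rw [e1, hab, map_mul, map_mul, map_mul, map_inv, map_inv]
  have hker : φ.ker = Subgroup.center (commutator G) := by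
    ext g
    rw [MonoidHom.mem_ker, hφ, Subgroup.mem_center_iff]
    constructor
    · intro h1 c
      exact Subtype.ext (h1 ⟨(c : G), hH c.2⟩)
    · intro h1 y
      obtain ⟨a, b, hab⟩ := hdec y
      have h2 : ((a * b * a⁻¹ * b⁻¹ : H) : G) * (g : G) = g * ((a * b * a⁻¹ * b⁻¹ : H) : G) :=
        congrArg Subtype.val (h1 ⟨((a * b * a⁻¹ * b⁻¹ : H) : G), hcm a b⟩)
      have h3 : (g : G) * ((y * (a * b * a⁻¹ * b⁻¹)⁻¹ : H) : G) = ((y * (a * b * a⁻¹ * b⁻¹)⁻¹ : H) : G) * g :=
        congrArg Subtype.val (hab ⟨(g : G), hH g.2⟩)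
      have h4 : (y : G) = ((y * (a * b * a⁻¹ * b⁻¹)⁻¹ : H) : G) * ((a * b * a⁻¹ * b⁻¹ : H) : G) := by
        rw [← Subgroup.coe_mul, inv_mul_cancel_right]
      rw [h4, mul_assoc, h2, ← mul_assoc, ← h3, mul_assoc]
  exact CSq.congr ((QuotientGroup.quotientKerEquivOfSurjective φ hsur).symm.trans (QuotientGroup.quotientMulEquivOfEq hker)) h

/-- `cc_of` for `H = ⊤`; `G ⧸ center G ≃* ⊤ ⧸ center ⊤` (`Subgroup.topEquiv`, `QuotientGroup.congr`), `CSq.congr`. -/
theorem cc_top {G : Type*} [Group G] (h : CSq (G ⧸ Subgroup.center G)) : CC G := by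
  refine cc_of ⊤ le_top ?_
  let ψ : (⊤ : Subgroup G) →* G ⧸ Subgroup.center G := (QuotientGroup.mk' (Subgroup.center G)).comp (⊤ : Subgroup G).subtype
  have hsur : Function.Surjective ψ := by
    intro q
    obtain ⟨a, rfl⟩ := QuotientGroup.mk'_surjective (Subgroup.center G) q
    exact ⟨⟨a, Subgroup.mem_top a⟩, rfl⟩
  have hker : ψ.ker = Subgroup.center (⊤ : Subgroup G) := by
    ext g
    have e1 : ψ g = 1 ↔ (g : G) ∈ Subgroup.center G := QuotientGroup.eq_one_iff (g : G)
    rw [MonoidHom.mem_ker, e1, Subgroup.mem_center_iff, Subgroup.mem_center_iff]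
    exact ⟨fun h1 y => Subtype.ext (h1 y), fun h1 y => congrArg Subtype.val (h1 ⟨y, Subgroup.mem_top y⟩)⟩
  exact CSq.congr ((QuotientGroup.quotientKerEquivOfSurjective ψ hsur).symm.trans (QuotientGroup.quotientMulEquivOfEq hker)) h
-- END gb

end ThC
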