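import Mathlib

/-! # Form parameters for the trivial involution -/

namespace ThC

-- BEGIN la
/-- MODULE la. `ε = 1` or `ε = -1` (`mul_self_eq_one_iff`).  If `2 ≠ 0`: `ε = 1`: `a = -a` gives `Λ = ⊥`; `ε = -1`: `2 a ∈ Λ` for all `a`, `Λ = ⊤`.  If `2 = 0`:
`ε = 1 = -1`; every element of the finite field `K` is a square (`FiniteField.isSquare_of_char_two`), so `c * a * c ∈ Λ` gives `Λ = ⊥` or `Λ = ⊤`. -/
theorem lam_dich {K : Type*} [Field K] [Finite K] (ε : K) (hε : ε * ε = 1) (Λ : AddSubgroup K)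
    (h1 : ∀ a, a - ε * a ∈ Λ) (h2 : ∀ a ∈ Λ, a = -(ε * a)) (h3 : ∀ a ∈ Λ, ∀ c, c * a * c ∈ Λ) :
    (Λ = ⊥ ∧ ε = 1) ∨ (Λ = ⊤ ∧ ε = -1) := by
  by_cases h : (2 : K) = 0
  · have hm : (-1 : K) = 1 := by linear_combination -h
    have he : ε = 1 := by
      rcases mul_self_eq_one_iff.1 hε with h4 | h4
      · exact h4
      · rw [h4, hm]
    by_cases hL : Λ = ⊥
    · exact Or.inl ⟨hL, he⟩
    · right
      refine ⟨?_, by rw [he, hm]⟩
      obtain ⟨⟨a, ha⟩, ha1⟩ := AddSubgroup.ne_bot_iff_exists_ne_zero.1 hL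
      have ha0 : a ≠ 0 := fun h5 => ha1 (Subtype.ext h5)
      rw [eq_top_iff]
      intro b _
      have hc : ringChar K = 2 := CharP.ringChar_of_prime_eq_zero Nat.prime_two (by exact_mod_cast h)
      obtain ⟨c, hc⟩ := FiniteField.isSquare_of_char_two hc (b * a⁻¹)
      have h5 := h3 a ha c
      have h6 : c * a * c = b := by
        calc c * a * c = (c * c) * a := by ring
          _ = b := by rw [← hc, inv_mul_cancel_right₀ ha0]
      rw [h6] at h5
      exact h5
  · rcases mul_self_eq_one_iff.1 hε with h4 | h4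
    · left
      refine ⟨?_, h4⟩
      rw [eq_bot_iff]
      intro a ha
      have h5 := h2 a ha
      rw [h4, one_mul] at h5
      have h6 : 2 * a = 0 := by linear_combination h5
      exact (mul_eq_zero.1 h6).resolve_left h
    · right
      refine ⟨?_, h4⟩
      rw [eq_top_iff]
      intro b _
      have h5 := h1 (b * 2⁻¹)
      have h6 : b * 2⁻¹ - ε * (b * 2⁻¹) = b := by
        rw [h4]
        calc b * 2⁻¹ - -1 * (b * 2⁻¹) = b * (2 * 2⁻¹) := by ring
          _ = b := by rw [mul_inv_cancel₀ h, mul_one]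
      rw [h6] at h5
      exact h5
-- END la

end ThC
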