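import Pool.Agent.ThC.Defs
import Pool.Agent.ThU.Fld

/-! # Hermitian forms over finite fields -/

namespace ThC
open Module

-- BEGIN ua
private theorem ua_indep {K V : Type*} [Field K] [AddCommGroup V] [Module K V]
    (h : V → V →ₗ[K] K) {m : ℕ} (b : Fin m → V) (hb : ∀ i j, h (b i) (b j) = if i = j then 1 else 0) :
    LinearIndependent K b := by
  rw [Fintype.linearIndependent_iff]
  intro g hg j
  have h1 : h (b j) (∑ i, g i • b i) = g j := by
    rw [map_sum, Finset.sum_eq_single j]
    · rw [map_smul, hb, if_pos rfl, smul_eq_mul, mul_one]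
    · intro i _ hij
      rw [map_smul, hb, if_neg (Ne.symm hij), smul_eq_mul, mul_zero]
    · intro hj
      exact absurd (Finset.mem_univ j) hj
  rw [hg, map_zero] at h1
  exact h1.symm

private theorem ua_vec {K V : Type*} [Field K] [Finite K] [StarRing K] [AddCommGroup V] [Module K V]
    (hK : ∃ x : K, star x ≠ x) (h : V → V →ₗ[K] K)
    (hs : ∀ x y, h y x = star (h x y)) (hn : ∀ x, (∀ y, h x y = 0) → x = 0) {x₀ : V} (hx₀ : x₀ ≠ 0) :
    ∃ v : V, h v v = 1 := by
  have h1 : ∃ v : V, h v v ≠ 0 := by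
    by_contra hcon
    push Not at hcon
    have h2 : ∃ y, h x₀ y ≠ 0 := by
      by_contra h3
      push Not at h3
      exact hx₀ (hn x₀ h3)
    obtain ⟨y, hy⟩ := h2
    obtain ⟨z, hz⟩ := ThU.fld_trace hK 1 (star_one K)
    have h4 := hcon (x₀ + (z / h x₀ y) • y)
    have h5 : h (x₀ + (z / h x₀ y) • y) x₀ = star (z / h x₀ y) * h y x₀ := by
      rw [hs x₀, map_add, map_smul, hcon x₀, zero_add, smul_eq_mul, star_mul', ← hs x₀ y]
    have h6 : h (x₀ + (z / h x₀ y) • y) y = h x₀ y := by
      rw [hs y, map_add, map_smul, hcon y, smul_zero, add_zero, ← hs y x₀]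
    rw [map_add, map_smul, h5, h6, smul_eq_mul, hs x₀ y, ← star_mul', div_mul_cancel₀ _ hy, add_comm, hz] at h4
    exact one_ne_zero h4
  obtain ⟨v, hv⟩ := h1
  have h2 : star (h v v) = h v v := (hs v v).symm
  have h3 : star (h v v)⁻¹ = (h v v)⁻¹ := by rw [star_inv₀, h2]
  obtain ⟨a, ha⟩ := ThU.fld_norm hK (h v v)⁻¹ h3
  refine ⟨a • v, ?_⟩
  have h4 : h (a • v) v = star a * h v v := by
    rw [hs v, map_smul, smul_eq_mul, star_mul', h2]
  rw [map_smul, h4, smul_eq_mul, ← mul_assoc, ha, inv_mul_cancel₀ hv]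

private theorem ua_aux {K : Type*} [Field K] [Finite K] [StarRing K] (hK : ∃ x : K, star x ≠ x) (m : ℕ) :
    ∀ (V : Type*) [AddCommGroup V] [Module K V] [FiniteDimensional K V] (h : V → V →ₗ[K] K)
      (_ : ∀ x y, h y x = star (h x y)) (_ : ∀ x, (∀ y, h x y = 0) → x = 0)
      (_ : finrank K V = m), ∃ b : Basis (Fin m) K V, ∀ i j, h (b i) (b j) = if i = j then 1 else 0 := by
  induction m with
  | zero =>
    intro V _ _ _ h hs hn hm
    exact ⟨finBasisOfFinrankEq K V hm, fun i => i.elim0⟩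
  | succ m ih =>
    intro V _ _ _ h hs hn hm
    have h0 : ∃ x₀ : V, x₀ ≠ 0 := by
      have : Nontrivial V := Module.nontrivial_of_finrank_pos (R := K) (by omega)
      exact exists_ne 0
    obtain ⟨x₀, hx₀⟩ := h0
    obtain ⟨v, hv⟩ := ua_vec hK h hs hn hx₀
    have hr : LinearMap.range (h v) = ⊤ := by
      rw [LinearMap.range_eq_top]
      intro c
      exact ⟨c • v, by rw [map_smul, hv, smul_eq_mul, mul_one]⟩
    have hk : finrank K (LinearMap.ker (h v)) = m := by
      have h1 := LinearMap.finrank_range_add_finrank_ker (h v)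
      rw [hr, finrank_top, finrank_self, hm] at h1
      omega
    have hdec : ∀ y, y - h v y • v ∈ LinearMap.ker (h v) := fun y => by
      rw [LinearMap.mem_ker, map_sub, map_smul, hv, smul_eq_mul, mul_one, sub_self]
    have hwv : ∀ w : LinearMap.ker (h v), h (w : V) v = 0 := fun w => by
      rw [hs v, LinearMap.mem_ker.1 w.2, star_zero]
    obtain ⟨b, hb⟩ := ih (LinearMap.ker (h v)) (fun w => (h (w : V)).comp (LinearMap.ker (h v)).subtype)
      (fun x y => hs (x : V) (y : V)) (fun w hw => by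
        apply Subtype.ext
        refine hn (w : V) fun y => ?_
        have h1 := hw ⟨y - h v y • v, hdec y⟩
        change h (w : V) (y - h v y • v) = 0 at h1
        rw [map_sub, map_smul, hwv w, smul_zero, sub_zero] at h1
        exact h1) hk
    have hg : ∀ i j, h ((Fin.cons v (fun i => ((b i : LinearMap.ker (h v)) : V)) : Fin (m + 1) → V) i)
        ((Fin.cons v (fun i => ((b i : LinearMap.ker (h v)) : V)) : Fin (m + 1) → V) j) = if i = j then 1 else 0 := by
      intro i j
      refine Fin.cases ?_ (fun i => ?_) i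
      · refine Fin.cases ?_ (fun j => ?_) j
        · rw [Fin.cons_zero, hv, if_pos rfl]
        · rw [Fin.cons_zero, Fin.cons_succ, LinearMap.mem_ker.1 (b j).2, if_neg (Fin.succ_ne_zero j).symm]
      · refine Fin.cases ?_ (fun j => ?_) j
        · rw [Fin.cons_zero, Fin.cons_succ, hwv (b i), if_neg (Fin.succ_ne_zero i)]
        · rw [Fin.cons_succ, Fin.cons_succ]
          have h1 := hb i j
          change h ((b i : LinearMap.ker (h v)) : V) ((b j : LinearMap.ker (h v)) : V) = _ at h1
          rw [h1]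
          by_cases hij : i = j
          · rw [if_pos hij, if_pos (congrArg Fin.succ hij)]
          · rw [if_neg hij, if_neg fun h2 => hij (Fin.succ_injective _ h2)]
    have hi := ua_indep h _ hg
    refine ⟨basisOfLinearIndependentOfCardEqFinrank hi (by rw [Fintype.card_fin, hm]), fun i j => ?_⟩
    rw [coe_basisOfLinearIndependentOfCardEqFinrank]
    exact hg i j

/-- MODULE ua. Induction on `m` (generalize `V`).  `m = 0`: the empty basis.  `m + 1`: there is `v` with `h v v ≠ 0` (otherwise, with `h x y ≠ 0` and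
`c` with `star c ≠ c`.. polarize: `h (x + c y) (x + c y) = c h x y + star (c h x y)` is the trace of `c h x y`, and the trace is onto
(`ThU.fld_trace` for `1`)); `h v v` is fixed by `star`, `ThU.fld_norm` gives `a` with `a * star a = (h v v)⁻¹`, replace `v` by `a • v` so that
`h v v = 1`.  `W = ker (h v)` has dimension `m`, `h` is nondegenerate on it (`V = K v + W`), basis of `W` by induction;
`Fin.cons v (..)` is linearly independent because its Gram matrix is the identity (`linearIndependent` from `h`), `basisOfLinearIndependentOfCardEqFinrank`. -/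
theorem onb {K V : Type*} [Field K] [Finite K] [StarRing K] [AddCommGroup V] [Module K V]
    [FiniteDimensional K V] (hK : ∃ x : K, star x ≠ x) (h : V → V →ₗ[K] K)
    (hs : ∀ x y, h y x = star (h x y)) (hn : ∀ x, (∀ y, h x y = 0) → x = 0) {m : ℕ}
    (hm : finrank K V = m) :
    ∃ b : Basis (Fin m) K V, ∀ i j, h (b i) (b j) = if i = j then 1 else 0 := by
  exact ua_aux hK m V h hs hn hm
-- END ua

-- BEGIN ub
private theorem ub_F {K V : Type*} [Field K] [StarRing K] [AddCommGroup V] [Module K V]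
    (h : V → V →ₗ[K] K) (hs : ∀ x y, h y x = star (h x y)) {m : ℕ} (b : Basis (Fin m) K V)
    (hb : ∀ i j, h (b i) (b j) = if i = j then 1 else 0) (x y : V) :
    h x y = ∑ k, star (b.repr x k) * b.repr y k := by
  have h1 : ∀ i y, h (b i) y = b.repr y i := by
    intro i y
    conv_lhs => rw [← b.sum_repr y]
    rw [map_sum, Finset.sum_eq_single i]
    · rw [map_smul, hb, if_pos rfl, smul_eq_mul, mul_one]
    · intro j _ hj
      rw [map_smul, hb, if_neg (Ne.symm hj), smul_zero]
    · intro hi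
      exact absurd (Finset.mem_univ i) hi
  have h2 : ∀ x i, h x (b i) = star (b.repr x i) := fun x i => by rw [hs (b i) x, h1]
  conv_lhs => rw [← b.sum_repr y]
  rw [map_sum]
  refine Finset.sum_congr rfl fun k _ => ?_
  rw [map_smul, h2, smul_eq_mul, mul_comm]

/-- MODULE ub. `g ↦ LinearMap.toMatrix b b g`: `A = toMatrix b b g` satisfies `Aᴴ A = 1` as `(Aᴴ A) i j = h (g (b i)) (g (b j))`
(`h (∑ x_k b_k) (∑ y_l b_l) = ∑ star (x_k) * y_k`); conversely `Matrix.toLin b b A` (with inverse for `Aᴴ`) is an isometry.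
`Matrix.mem_unitaryGroup_iff'`. -/
theorem iso_uni {K V : Type*} [Field K] [StarRing K] [AddCommGroup V] [Module K V]
    (h : V → V →ₗ[K] K) (hs : ∀ x y, h y x = star (h x y)) {m : ℕ} (b : Basis (Fin m) K V)
    (hb : ∀ i j, h (b i) (b j) = if i = j then 1 else 0) :
    Nonempty (isoH (fun x y => h x y) ≃* Matrix.unitaryGroup (Fin m) K) := by
  have key : ∀ g : V ≃ₗ[K] V, g ∈ isoH (fun x y => h x y) →
      star (LinearMap.toMatrixAlgEquiv b (g : V →ₗ[K] V)) * LinearMap.toMatrixAlgEquiv b (g : V →ₗ[K] V) = 1 := by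
    intro g hg
    ext i j
    rw [Matrix.mul_apply, Matrix.one_apply, ← hb i j]
    have e1 : h (g (b i)) (g (b j)) = h (b i) (b j) := hg (b i) (b j)
    rw [← e1, ub_F h hs b hb]
    refine Finset.sum_congr rfl fun k _ => ?_
    rw [Matrix.star_apply, LinearMap.toMatrixAlgEquiv_apply, LinearMap.toMatrixAlgEquiv_apply]
    rfl
  let F : isoH (fun x y => h x y) →* Matrix.unitaryGroup (Fin m) K :=
    { toFun := fun g => ⟨LinearMap.toMatrixAlgEquiv b ((g : V ≃ₗ[K] V) : V →ₗ[K] V), Matrix.mem_unitaryGroup_iff'.2 (key g g.2)⟩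
      map_one' := Subtype.ext (map_one (LinearMap.toMatrixAlgEquiv b))
      map_mul' := fun g g' => Subtype.ext (map_mul (LinearMap.toMatrixAlgEquiv b) ((g : V ≃ₗ[K] V) : V →ₗ[K] V) ((g' : V ≃ₗ[K] V) : V →ₗ[K] V)) }
  refine ⟨MulEquiv.ofBijective F ⟨?_, ?_⟩⟩
  · intro g g' hgg
    have e1 : LinearMap.toMatrixAlgEquiv b ((g : V ≃ₗ[K] V) : V →ₗ[K] V) = LinearMap.toMatrixAlgEquiv b ((g' : V ≃ₗ[K] V) : V →ₗ[K] V) := congrArg Subtype.val hgg
    exact Subtype.ext (LinearEquiv.toLinearMap_injective ((LinearMap.toMatrixAlgEquiv b).injective e1))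
  · intro A
    have hA1 : star (A : Matrix (Fin m) (Fin m) K) * (A : Matrix (Fin m) (Fin m) K) = 1 := Matrix.mem_unitaryGroup_iff'.1 A.2
    have hA2 : (A : Matrix (Fin m) (Fin m) K) * star (A : Matrix (Fin m) (Fin m) K) = 1 := Matrix.mem_unitaryGroup_iff.1 A.2
    have c1 : (Matrix.toLinAlgEquiv b (A : Matrix (Fin m) (Fin m) K)).comp (Matrix.toLinAlgEquiv b (star (A : Matrix (Fin m) (Fin m) K))) = LinearMap.id := by
      show Matrix.toLinAlgEquiv b (A : Matrix (Fin m) (Fin m) K) * Matrix.toLinAlgEquiv b (star (A : Matrix (Fin m) (Fin m) K)) = 1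
      rw [← map_mul, hA2, map_one]
    have c2 : (Matrix.toLinAlgEquiv b (star (A : Matrix (Fin m) (Fin m) K))).comp (Matrix.toLinAlgEquiv b (A : Matrix (Fin m) (Fin m) K)) = LinearMap.id := by
      show Matrix.toLinAlgEquiv b (star (A : Matrix (Fin m) (Fin m) K)) * Matrix.toLinAlgEquiv b (A : Matrix (Fin m) (Fin m) K) = 1
      rw [← map_mul, hA1, map_one]
    let f : V ≃ₗ[K] V := LinearEquiv.ofLinearMap (Matrix.toLinAlgEquiv b (A : Matrix (Fin m) (Fin m) K)) (Matrix.toLinAlgEquiv b (star (A : Matrix (Fin m) (Fin m) K))) c1 c2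
    have hf : ∀ x, (b.repr (f x) : Fin m → K) = (A : Matrix (Fin m) (Fin m) K).mulVec (b.repr x) := by
      intro x
      show (b.repr (Matrix.toLin b b (A : Matrix (Fin m) (Fin m) K) x) : Fin m → K) = _
      rw [← LinearMap.toMatrix_mulVec_repr b b, LinearMap.toMatrix_toLin]
    have hm : f ∈ isoH (fun x y => h x y) := by
      intro x y
      show h (f x) (f y) = h x y
      rw [ub_F h hs b hb, ub_F h hs b hb]
      have e1 : ∑ k, star (b.repr (f x) k) * b.repr (f y) k = dotProduct (star (b.repr (f x) : Fin m → K)) (b.repr (f y) : Fin m → K) := rfl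
      have e2 : ∑ k, star (b.repr x k) * b.repr y k = dotProduct (star (b.repr x : Fin m → K)) (b.repr y : Fin m → K) := rfl
      rw [e1, e2, hf, hf, Matrix.star_mulVec, Matrix.dotProduct_mulVec, Matrix.vecMul_vecMul, ← Matrix.star_eq_conjTranspose, hA1, Matrix.vecMul_one]
    refine ⟨⟨f, hm⟩, Subtype.ext ?_⟩
    show LinearMap.toMatrixAlgEquiv b (f : V →ₗ[K] V) = (A : Matrix (Fin m) (Fin m) K)
    have e3 : (f : V →ₗ[K] V) = Matrix.toLinAlgEquiv b (A : Matrix (Fin m) (Fin m) K) := rfl
    rw [e3, LinearMap.toMatrixAlgEquiv_toLinAlgEquiv]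
-- END ub

end ThC
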