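import Pool.Agent.ThC.Defs
import Pool.Agent.ThS.Spa

/-! # Alternating forms -/

namespace ThC
open Module Matrix

-- BEGIN sa
/-- MODULE sa. `ThS.AF` with `h`, `ThS.hyp_all` for `⊤` gives `w, w'` with `h (w' i) (w j) = δ`; `h (w i) (w' j) = -δ`.  `b = Sum.elim w w'` has the Gram
matrix `J = fromBlocks 0 (-1) 1 0`; linearly independent (apply `h`), `basisOfLinearIndependentOfCardEqFinrank`. -/
theorem sp_basis {K V : Type*} [Field K] [AddCommGroup V] [Module K V] [FiniteDimensional K V]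
    (h : V → V →ₗ[K] K) (ha : ∀ x, h x x = 0) (hs : ∀ x y, h y x = -h x y)
    (hn : ∀ x, (∀ y, h x y = 0) → x = 0) :
    ∃ (n : ℕ) (b : Basis (Fin n ⊕ Fin n) K V), finrank K V = 2 * n ∧
      ∀ i j, h (b i) (b j) = Matrix.J (Fin n) K i j := by
  obtain ⟨n, w, w', h1, h2⟩ := ThS.hyp_all (⟨h, ha, hs⟩ : ThS.AF K V) (⊤ : Submodule K V)
    (fun x _ hx => hn x fun y => hx y trivial)
  rw [finrank_top] at h1
  have hd : ∀ i j, h (w' i) (w j) = if i = j then 1 else 0 := h2.dual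
  have hi : ∀ i j, h (w i) (w j) = 0 := h2.iso
  have hi' : ∀ i j, h (w' i) (w' j) = 0 := h2.iso'
  have hd' : ∀ i j, h (w i) (w' j) = -(if i = j then 1 else 0) := by
    intro i j
    rw [hs (w' j) (w i), hd]
    simp only [eq_comm]
  have hl : LinearIndependent K (Sum.elim w w') := by
    rw [Fintype.linearIndependent_iff]
    intro g hg
    rw [Fintype.sum_sum_type] at hg
    simp only [Sum.elim_inl, Sum.elim_inr] at hg
    rintro (i | i)
    · have h3 := congrArg (h (w' i)) hg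
      simpa [map_add, map_sum, hd, hi'] using h3
    · have h3 := congrArg (h (w i)) hg
      simpa [map_add, map_sum, hd', hi] using h3
  have hc : Fintype.card (Fin n ⊕ Fin n) = finrank K V := by
    rw [Fintype.card_sum, Fintype.card_fin, h1, two_mul]
  refine ⟨n, basisOfLinearIndependentOfCardEqFinrank' _ hl hc, h1, ?_⟩
  rw [coe_basisOfLinearIndependentOfCardEqFinrank']
  rintro (i | i) (j | j)
  · simp [Matrix.J, hi]
  · simp [Matrix.J, hd', Matrix.one_apply]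
  · simp [Matrix.J, hd, Matrix.one_apply]
  · simp [Matrix.J, hi']
-- END sa

-- BEGIN sb
/-- MODULE sb. `g ↦ A = LinearMap.toMatrix b b g`: `Aᵀ J A = J` (`(Aᵀ J A) i j = h (g (b i)) (g (b j))`), so `Aᵀ ∈ symplecticGroup` and `A ∈
symplecticGroup` (`SymplecticGroup.transpose_mem_iff`, `SymplecticGroup.mem_iff'`); conversely. -/
theorem iso_sp {K V : Type*} [Field K] [AddCommGroup V] [Module K V] (h : V → V →ₗ[K] K)
    (hs : ∀ x y, h y x = -h x y) {n : ℕ} (b : Basis (Fin n ⊕ Fin n) K V)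
    (hb : ∀ i j, h (b i) (b j) = Matrix.J (Fin n) K i j) :
    Nonempty (isoH (fun x y => h x y) ≃* Matrix.symplecticGroup (Fin n) K) := by
  obtain ⟨β, hβ⟩ : ∃ β : V →ₗ[K] V →ₗ[K] K, ∀ x y, β x y = h x y :=
    ⟨LinearMap.mk₂ K (fun x y => h x y) (fun x x' y => by rw [hs, map_add, hs x y, hs x' y]; ring)
      (fun c x y => by rw [hs, map_smul, hs x y, smul_neg, neg_neg]) (fun x y y' => map_add _ _ _) (fun c x y => map_smul _ _ _), fun x y => rfl⟩
  have hJ : LinearMap.toMatrix₂ b b β = Matrix.J (Fin n) K := by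
    ext i j
    rw [LinearMap.toMatrix₂_apply, hβ, hb]
  have key : ∀ f : V →ₗ[K] V, (∀ x y, h (f x) (f y) = h x y) ↔ LinearMap.toMatrix b b f ∈ Matrix.symplecticGroup (Fin n) K := by
    intro f
    rw [SymplecticGroup.mem_iff', ← hJ, ← LinearMap.toMatrix₂_compl₁₂, (LinearMap.toMatrix₂ b b).injective.eq_iff]
    constructor
    · intro h1
      ext x y
      rw [LinearMap.compl₁₂_apply, hβ, hβ, h1]
    · intro h1 x y
      have h2 := LinearMap.congr_fun₂ h1 x y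
      rw [LinearMap.compl₁₂_apply, hβ, hβ] at h2
      exact h2
  obtain ⟨φ, hφ⟩ : ∃ φ : isoH (fun x y => h x y) →* Matrix.symplecticGroup (Fin n) K, ∀ g, (φ g : Matrix (Fin n ⊕ Fin n) (Fin n ⊕ Fin n) K) =
      LinearMap.toMatrix b b ((g : V ≃ₗ[K] V) : V →ₗ[K] V) := by
    refine ⟨⟨⟨fun g => ⟨LinearMap.toMatrix b b ((g : V ≃ₗ[K] V) : V →ₗ[K] V), (key _).1 g.2⟩, ?_⟩, ?_⟩, fun g => rfl⟩
    · apply Subtype.ext
      exact LinearMap.toMatrix_id b
    · intro g g'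
      apply Subtype.ext
      exact LinearMap.toMatrix_mul b ((g : V ≃ₗ[K] V) : V →ₗ[K] V) ((g' : V ≃ₗ[K] V) : V →ₗ[K] V)
  refine ⟨MulEquiv.ofBijective φ ⟨fun g g' hg => ?_, fun A => ?_⟩⟩
  · have h1 := congrArg Subtype.val hg
    rw [hφ, hφ] at h1
    have h2 := (LinearMap.toMatrix b b).injective h1
    apply Subtype.ext
    exact LinearEquiv.toLinearMap_injective h2
  · have h1 : (A : Matrix (Fin n ⊕ Fin n) (Fin n ⊕ Fin n) K) * ((A⁻¹ : Matrix.symplecticGroup (Fin n) K) : Matrix (Fin n ⊕ Fin n) (Fin n ⊕ Fin n) K) = 1 :=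
      congrArg Subtype.val (mul_inv_cancel A)
    have h2 : ((A⁻¹ : Matrix.symplecticGroup (Fin n) K) : Matrix (Fin n ⊕ Fin n) (Fin n ⊕ Fin n) K) * (A : Matrix (Fin n ⊕ Fin n) (Fin n ⊕ Fin n) K) = 1 :=
      congrArg Subtype.val (inv_mul_cancel A)
    obtain ⟨f, hf⟩ : ∃ f : V ≃ₗ[K] V, (f : V →ₗ[K] V) = Matrix.toLin b b (A : Matrix (Fin n ⊕ Fin n) (Fin n ⊕ Fin n) K) :=
      ⟨Matrix.toLinOfInv b b h1 h2, rfl⟩
    have h3 : LinearMap.toMatrix b b (f : V →ₗ[K] V) = A := by rw [hf, LinearMap.toMatrix_toLin]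
    refine ⟨⟨f, (key (f : V →ₗ[K] V)).2 (by rw [h3]; exact A.2)⟩, ?_⟩
    apply Subtype.ext
    rw [hφ]
    exact h3
-- END sb

end ThC
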