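import Pool.Agent.ThC.Grp
import Pool.Agent.ThV.All

/-! # The unitary group -/

namespace ThC
open Matrix

-- BEGIN uc
private theorem uc_center {G H : Type*} [Group G] [Group H] (e : G ≃* H) :
    (Subgroup.center G).map (e : G →* H) = Subgroup.center H := by
  ext x
  rw [Subgroup.mem_map, Subgroup.mem_center_iff]
  constructor
  · rintro ⟨y, hy, rfl⟩ g
    rw [Subgroup.mem_center_iff] at hy
    have h1 := congrArg e (hy (e.symm g))
    rw [map_mul, map_mul, e.apply_symm_apply] at h1
    exact h1
  · intro hx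
    refine ⟨e.symm x, ?_, e.apply_symm_apply x⟩
    rw [Subgroup.mem_center_iff]
    intro g
    apply e.injective
    rw [map_mul, map_mul, e.apply_symm_apply]
    exact hx (e g)

/-- the determinant -/
private def uc_det (K : Type) [Field K] [StarRing K] (m : ℕ) : unitaryGroup (Fin m) K →* K :=
  Matrix.detMonoidHom.comp (unitaryGroup (Fin m) K).subtype

private theorem uc_comm (K : Type) [Field K] [StarRing K] (m : ℕ) :
    commutator (unitaryGroup (Fin m) K) ≤ (uc_det K m).ker := by
  rw [commutator_def, Subgroup.commutator_le]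
  intro g₁ _ g₂ _
  rw [MonoidHom.mem_ker, commutatorElement_def, map_mul, map_mul, map_mul]
  have h1 : uc_det K m g₁ * uc_det K m g₁⁻¹ = 1 := by rw [← map_mul, mul_inv_cancel, map_one]
  have h2 : uc_det K m g₂ * uc_det K m g₂⁻¹ = 1 := by rw [← map_mul, mul_inv_cancel, map_one]
  calc uc_det K m g₁ * uc_det K m g₂ * uc_det K m g₁⁻¹ * uc_det K m g₂⁻¹
      = uc_det K m g₁ * uc_det K m g₁⁻¹ * (uc_det K m g₂ * uc_det K m g₂⁻¹) := by ring
    _ = 1 := by rw [h1, h2, one_mul]

/-- the elements of determinant one -/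
private def uc_iso (K : Type) [Field K] [StarRing K] (m : ℕ) :
    specialUnitaryGroup (Fin m) K ≃* (uc_det K m).ker where
  toFun A := ⟨⟨A.1, (mem_specialUnitaryGroup_iff.1 A.2).1⟩, (mem_specialUnitaryGroup_iff.1 A.2).2⟩
  invFun B := ⟨B.1.1, mem_specialUnitaryGroup_iff.2 ⟨B.1.2, B.2⟩⟩
  left_inv _ := rfl
  right_inv _ := rfl
  map_mul' _ _ := rfl

/-- MODULE uc. `G = unitaryGroup (Fin m) K`, `H` = the subgroup of the elements of determinant 1 (kernel of `det : G →* K`, which contains
`commutator G` because `K` is commutative: `Units`, `Abelianization.commutator_subset_ker`, or directly with `Subgroup.closure_le`), `H ≃* specialUnitaryGroup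
(Fin m) K` (both are the matrices with `star A * A = 1`, `det A = 1`), `QuotientGroup.congr`, `CSq.congr`, `ThU.psu_all`, `cc_of`. -/
theorem uni_mat (K : Type) [Field K] [Finite K] [StarRing K] (hK : ∃ x : K, star x ≠ x) {m : ℕ}
    (hm : 3 ≤ m) (hmK : m ≠ 3 ∨ Nat.card K ≠ 4) : CC (unitaryGroup (Fin m) K) := by
  have h1 : CSq (specialUnitaryGroup (Fin m) K ⧸ Subgroup.center (specialUnitaryGroup (Fin m) K)) :=
    ThU.psu_all K hK m hm hmK
  have h2 : CSq ((uc_det K m).ker ⧸ Subgroup.center (uc_det K m).ker) :=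
    CSq.congr (QuotientGroup.congr _ _ (uc_iso K m) (uc_center (uc_iso K m))) h1
  exact cc_of _ (uc_comm K m) h2
-- END uc

end ThC
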