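import Pool.Agent.ThC.Ort
import Pool.Agent.ThC.Umat
import Pool.Agent.ThC.Onb
import Pool.Agent.ThC.Spb
import Pool.Agent.ThC.Lam
import Pool.Agent.ThW4.Thr

/-! # All forms with form parameter -/

namespace ThC
open Module Matrix

/-- alternating forms -/
theorem alt_cc {K V : Type} [Field K] [Finite K] [AddCommGroup V] [Module K V]
    [FiniteDimensional K V] (h : V → V →ₗ[K] K) (ha : ∀ x, h x x = 0)
    (hs : ∀ x y, h y x = -h x y) (hn : ∀ x, (∀ y, h x y = 0) → x = 0) (hV : 4 ≤ finrank K V)
    (hK : finrank K V = 4 → 3 ≤ Nat.card K) : CC (isoH (fun x y => h x y)) := by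
  obtain ⟨n, b, hb, hJ⟩ := sp_basis h ha hs hn
  obtain ⟨e⟩ := iso_sp h hs b hJ
  have h1 : CC (symplecticGroup (Fin n) K) :=
    cc_top (ThW4.quotS_four' (K := K) (n := n) (by omega) (fun h2 => hK (by omega)))
  exact CC.congr e.symm h1

/-- hermitian forms -/
theorem herm_cc {K V : Type} [Field K] [Finite K] [StarRing K] [AddCommGroup V] [Module K V]
    [FiniteDimensional K V] (hK : ∃ x : K, star x ≠ x) (h : V → V →ₗ[K] K)
    (hs : ∀ x y, h y x = star (h x y)) (hn : ∀ x, (∀ y, h x y = 0) → x = 0)
    (hV : 3 ≤ finrank K V) (hK4 : finrank K V = 3 → Nat.card K ≠ 4) :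
    CC (isoH (fun x y => h x y)) := by
  obtain ⟨b, hb⟩ := onb hK h hs hn rfl
  obtain ⟨e⟩ := iso_uni h hs b hb
  refine CC.congr e.symm (uni_mat K hK hV ?_)
  by_cases h3 : finrank K V = 3
  · exact Or.inr (hK4 h3)
  · exact Or.inl h3

/-- The main theorem, for a sesquilinear form `f` with values modulo the form parameter `Λ`. -/
theorem main_class {K V : Type} [Field K] [Finite K] [AddCommGroup V] [Module K V]
    [FiniteDimensional K V] (σ : K →+* K) (hσ : ∀ a, σ (σ a) = a) (ε : K) (hε : ε * σ ε = 1)
    (Λ : AddSubgroup K) (h1 : ∀ a, a - ε * σ a ∈ Λ) (h2 : ∀ a ∈ Λ, a = -(ε * σ a))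
    (h3 : ∀ a ∈ Λ, ∀ c, c * a * σ c ∈ Λ) (f : V →ₛₗ[σ] V →ₗ[K] K)
    (hn : ∀ x, (∀ y, f x y + ε * σ (f y x) = 0) → x = 0) (G : Subgroup (V ≃ₗ[K] V))
    (hG : ∀ g, g ∈ G ↔ (∀ x y, f (g x) (g y) + ε * σ (f (g y) (g x)) = f x y + ε * σ (f y x)) ∧
      ∀ x, f (g x) (g x) - f x x ∈ Λ)
    (hV : 7 ≤ finrank K V ∨ (Λ = ⊤ ∧ 4 ≤ finrank K V ∧ (finrank K V = 4 → 3 ≤ Nat.card K)) ∨
      ((∃ a, σ a ≠ a) ∧ 3 ≤ finrank K V ∧ (finrank K V = 3 → Nat.card K ≠ 4))) : CC G := by
  by_cases hs : ∃ a, σ a ≠ a
  · -- the unitary case
    let _ : StarRing K :=
      { star := σ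
        star_involutive := hσ
        star_mul := fun a b => by
          show σ (a * b) = σ b * σ a
          rw [map_mul, mul_comm]
        star_add := fun a b => map_add σ a b }
    have hst : ∀ a : K, star a = σ a := fun _ => rfl
    have hd : 3 ≤ finrank K V ∧ (finrank K V = 3 → Nat.card K ≠ 4) := by
      rcases hV with h | ⟨h, -, -⟩ | ⟨-, h, h'⟩
      · exact ⟨by omega, fun h' => by omega⟩
      · exfalso
        have hall : ∀ a : K, a = -(ε * σ a) := fun a => h2 a (by rw [h]; trivial)
        obtain ⟨a, ha⟩ := hs
        apply ha
        have e1 := hall 1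
        rw [map_one, mul_one] at e1
        have e2 := hall a
        linear_combination σ a * e1 - e2
      · exact ⟨h, h'⟩
    obtain ⟨c, hc0, hc⟩ := ThU.fld_hilb hs (σ ε) (by rw [hst, hσ, mul_comm, hε])
    rw [hst] at hc
    -- `c = σ ε * σ c`, so `σ c = ε * c`
    have hc' : σ c = ε * c := by
      have h : ε * c = ε * (σ ε * σ c) := by rw [← hc]
      rw [h, ← mul_assoc, hε, one_mul]
    -- the hermitian form
    let hh : V → V →ₗ[K] K := fun x =>
      { toFun := fun y => c * (f x y + ε * σ (f y x))
        map_add' := fun y z => by
          simp only [map_add, LinearMap.add_apply]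
          ring
        map_smul' := fun a y => by
          simp only [map_smul, LinearMap.map_smulₛₗ, LinearMap.smul_apply, smul_eq_mul, map_mul, hσ,
            RingHom.id_apply]
          ring }
    have hh_apply : ∀ x y, hh x y = c * (f x y + ε * σ (f y x)) := fun _ _ => rfl
    have hherm : ∀ x y, hh y x = star (hh x y) := by
      intro x y
      rw [hst, hh_apply, hh_apply, map_mul, map_add, map_mul, hσ, hc']
      linear_combination (-(c * f y x)) * hε
    have hnd : ∀ x, (∀ y, hh x y = 0) → x = 0 := by
      intro x hx
      apply hn x
      intro y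
      have := hx y
      rw [hh_apply] at this
      exact (mul_eq_zero.1 this).resolve_left hc0
    have key := herm_cc hs hh hherm hnd hd.1 hd.2
    have e : isoH (fun x y => hh x y) = G := by
      ext g
      rw [hG]
      constructor
      · intro h
        have e1 : ∀ x y, f (g x) (g y) + ε * σ (f (g y) (g x)) = f x y + ε * σ (f y x) := by
          intro x y
          exact mul_left_cancel₀ hc0 (h x y)
        refine ⟨e1, fun x => ?_⟩
        obtain ⟨t, ht⟩ := ThU.fld_trace hs 1 (by rw [hst, map_one])
        rw [hst] at ht
        have e2 := e1 x x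
        have e3 : f (g x) (g x) - f x x =
            t * (f (g x) (g x) - f x x) - ε * σ (t * (f (g x) (g x) - f x x)) := by
          rw [map_mul, map_sub]
          linear_combination (-(f (g x) (g x) - f x x)) * ht + σ t * e2
        rw [e3]
        exact h1 _
      · rintro ⟨h, -⟩ x y
        show c * _ = c * _
        rw [h]
    rw [e] at key
    exact key
  · -- the involution is trivial
    push Not at hs
    have hs' : ∀ a, σ a = a := hs
    have hd : 7 ≤ finrank K V ∨ (Λ = ⊤ ∧ 4 ≤ finrank K V ∧ (finrank K V = 4 → 3 ≤ Nat.card K)) := by
      rcases hV with h | h | ⟨⟨a, ha⟩, -⟩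
      · exact Or.inl h
      · exact Or.inr h
      · exact absurd (hs' a) ha
    have hlin : ∀ (a : K) (x y : V), f (a • x) y = a * f x y := by
      intro a x y
      rw [LinearMap.map_smulₛₗ, LinearMap.smul_apply, smul_eq_mul, hs']
    have dich := lam_dich ε (by rw [← hε, hs']) Λ (fun a => by simpa [hs'] using h1 a)
      (fun a ha => by simpa [hs'] using h2 a ha) (fun a ha c => by simpa [hs'] using h3 a ha c)
    rcases dich with ⟨hΛ, hε1⟩ | ⟨hΛ, hε1⟩
    · -- the orthogonal case
      have h7 : 7 ≤ finrank K V := by
        rcases hd with h | ⟨h, -⟩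
        · exact h
        · rw [hΛ] at h
          exact absurd h bot_ne_top
      let q : ThQ.QF K V :=
        { h := fun x =>
            { toFun := fun y => f x y + f y x
              map_add' := fun y z => by
                simp only [map_add, LinearMap.add_apply]
                ring
              map_smul' := fun a y => by
                simp only [map_smul, hlin, smul_eq_mul, RingHom.id_apply]
                ring }
          Q := fun x => f x x
          symm := fun x y => by
            show f y x + f x y = f x y + f y x
            ring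
          add := fun x y => by
            show f (x + y) (x + y) = f x x + f y y + (f x y + f y x)
            simp only [map_add, LinearMap.add_apply]
            ring
          smul := fun c x => by
            show f (c • x) (c • x) = c ^ 2 * f x x
            rw [hlin, map_smul, smul_eq_mul]
            ring }
      have hq : q.ND ⊤ := by
        intro x _ hx
        apply hn x
        intro y
        have := hx y trivial
        rw [hs', hε1, one_mul]
        exact this
      have key := ort_cc q hq h7
      have e : ThQ.IG q = G := by
        ext g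
        rw [hG]
        constructor
        · intro h
          have h0 : ∀ x, f (g x) (g x) = f x x := h
          refine ⟨fun x y => ?_, fun x => ?_⟩
          · rw [hs', hs', hε1, one_mul, one_mul]
            have e1 := h0 (x + y)
            simp only [map_add, LinearMap.add_apply] at e1
            linear_combination e1 - h0 x - h0 y
          · rw [h0, sub_self]
            exact Λ.zero_mem
        · rintro ⟨-, h⟩ x
          have := h x
          rw [hΛ, AddSubgroup.mem_bot] at this
          exact sub_eq_zero.1 this
      rw [e] at key
      exact key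
    · -- the symplectic case
      let hh : V → V →ₗ[K] K := fun x =>
        { toFun := fun y => f x y - f y x
          map_add' := fun y z => by
            simp only [map_add, LinearMap.add_apply]
            ring
          map_smul' := fun a y => by
            simp only [map_smul, hlin, smul_eq_mul, RingHom.id_apply]
            ring }
      have hh_apply : ∀ x y, hh x y = f x y - f y x := fun _ _ => rfl
      have halt : ∀ x, hh x x = 0 := fun x => by rw [hh_apply, sub_self]
      have hsym : ∀ x y, hh y x = -hh x y := fun x y => by rw [hh_apply, hh_apply]; ring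
      have hnd : ∀ x, (∀ y, hh x y = 0) → x = 0 := by
        intro x hx
        apply hn x
        intro y
        have := hx y
        rw [hh_apply] at this
        rw [hs', hε1]
        linear_combination this
      have h4 : 4 ≤ finrank K V ∧ (finrank K V = 4 → 3 ≤ Nat.card K) := by
        rcases hd with h | ⟨-, h⟩
        · exact ⟨by omega, fun h' => by omega⟩
        · exact h
      have key := alt_cc hh halt hsym hnd h4.1 h4.2
      have e : isoH (fun x y => hh x y) = G := by
        ext g
        rw [hG]
        constructor
        · intro h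
          refine ⟨fun x y => ?_, fun x => by rw [hΛ]; trivial⟩
          have e1 : f (g x) (g y) - f (g y) (g x) = f x y - f y x := h x y
          rw [hs', hs', hε1]
          linear_combination e1
        · rintro ⟨h, -⟩ x y
          show f (g x) (g y) - f (g y) (g x) = f x y - f y x
          have e1 := h x y
          rw [hs', hs', hε1] at e1
          linear_combination e1
      rw [e] at key
      exact key

end ThC
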