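import Pool.Agent.Th2.Fin2
import Pool.Agent.ThO.OMain
import Pool.Agent.ThO7.Fin
import Pool.Agent.ThC.Defs

/-! # Quadratic forms of dimension at least 7 -/

namespace ThC
open Module

theorem ort_cc {K V : Type*} [Field K] [Finite K] [AddCommGroup V] [Module K V]
    [FiniteDimensional K V] (q : ThQ.QF K V) (hq : q.ND ⊤) (hV : 7 ≤ finrank K V) :
    CC (ThQ.IG q) := by
  have : Finite V := Module.finite_of_finite K
  have h : ThQ.TP (ThQ.IG q) := by
    rcases Nat.even_or_odd' (finrank K V) with ⟨m, hm | hm⟩
    · exact Th2.main_QA q hq (by omega) hm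
    · by_cases h2 : (2 : K) = 0
      · exfalso
        let a : ThS.AF K V :=
          { h := q.h
            alt := fun x => by rw [q.h_self, h2, zero_mul]
            symm := fun x y => by
              rw [q.symm x y]
              linear_combination q.h x y * h2 }
        obtain ⟨n, w, w', hn, -⟩ := ThS.hyp_all a ⊤ hq
        rw [finrank_top] at hn
        omega
      · rcases (by omega : m = 3 ∨ 4 ≤ m) with rfl | h4
        · exact ThO7.main_Q7 h2 q hq hm
        · exact ThO.main_QO h2 q hq h4 hm
  exact h.quot

end ThC
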